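import Pool.Agent.H78.PSQ.Psl

/-!
# The family of the pairs of labels with a natural second label: context and value

`psq_ctx`: the context is few bits if the context of the chain is; `psq_val`: the value of the second
label is few bits given the near heights of the base.
-/

set_option autoImplicit false

namespace Pool.PN18

open Finset Real MvPolynomial
open Pool.Agent.H49.Ent Pool.Agent.H32.Dense Pool.STK Pool.KA Pool.KSAT Pool.K2S Pool.PB Pool.GEN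
open Pool.S6C Pool.RCD Pool.LA91 Pool.OWN68 Pool.AJW Pool.AJX Pool.CHT
open Pool.ALT (Fml NzQ NzF NzL NzO nzG floorw wz wz_slam sbu sbu_deg sbu_dep DpI DpI.sub nzq_few)
open Pool.GRD (LbP)

variable {m : ℕ} {Ψ₀ : Fml m} {c : ℕ → Fin m} {r D K : ℕ}
  {vn v t p₁ p₂ eN uN pN pa₁ pa₂ ea ua pa lam e : ℝ} {E rd p n : ℕ → ℝ}

/-- **The context is few bits**, if the context of the chain is. -/
theorem psq_ctx {S : PCl m} {U₀ : Type} {Qu : Qt m U₀} {R : ℕ} (hR : R ≤ r + 2) (hvt : v ≤ t)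
    (ht : t ≤ 1) {δ : ℝ}
    (H : FwX S (fun J F => ptr F J) (vg t) (fun _ F => F.T) Qu c 0 R K E v rd p
      (ctx c 0 r K v lam n) e δ) :
    Fw2 S (fun J F => ptr F J) t (fun _ F => F.T) Qu
      (PsQ Ψ₀ c r D K vn v t p₁ p₂ eN uN pN pa₁ pa₂ ea ua pa lam e E rd p n)
      (τ := fun _ _ _ C => C) (fun J F _ _ _ _ _ c ω => c (vg v J F ω)) e δ := by
  intro K₀
  refine Bas.mono 0 (H K₀) ?_
  rintro J - F A H V C z z' G₁ G₂ cc ⟨g, h1, -, -, -, -, ψ, hψ⟩ u₀ hu₀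
  obtain ⟨f1, f2⟩ := floorw hvt ht J
  have hcl : ∀ ω, A ω → z (ptr F J ω) = z' (slam F ⌊v * J⌋₊ ω) :=
    (h1 0 le_rfl (by omega)).cls
  obtain ⟨V₁, z₁, hz₁, h2⟩ := H V z z' g (fun i a b => h1 i a (by omega)) u₀ hu₀
  have hz' : Cl2 (ptr F J) (vg t J F) A (fun ω => z' (slam F ⌊v * J⌋₊ ω)) :=
    ⟨⟨z, fun ω hω => (hcl ω hω).symm⟩, wz z' ⌊v * J⌋₊ ⌊t * J⌋₊, fun ω _ => by
      show z' (slam F ⌊v * J⌋₊ ω) = wz z' ⌊v * J⌋₊ ⌊t * J⌋₊ (slam F ⌊t * J⌋₊ ω)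
      rw [wz_slam z' f1 f2]⟩
  refine ⟨V₁ × V, fun ω => (z₁ ω, z' (slam F ⌊v * J⌋₊ ω)), hz₁.join hz', ?_⟩
  have hq : ∀ ω, 0 ≤ Pool.Agent.H49.Ent.cond F.p A True ω := cond_nonneg F.isLaw.nonneg A True
  refine le_trans (CH_mono_left hq (X' := ctx c 0 r K v lam n J F V z' g)
    fun ω ω' _ _ hh => ?_) (le_trans (CH_mono_cond hq (W := fun ω => (u₀ ω, (z₁ ω, F.T ω)))
      fun ω ω' _ _ hh => ?_) h2)
  · simp only [Prod.mk.injEq] at hh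
    obtain ⟨hc, -, ⟨-, hz⟩, -⟩ := hh
    have e1 : ∀ ω, cc (vg v J F ω) = ψ (z' (slam F ⌊v * J⌋₊ ω), ctx c 0 r K v lam n J F V z' g ω) :=
      fun ω => hψ (vg v J F ω)
    show cc (vg v J F ω) = cc (vg v J F ω')
    rw [e1, e1, hc, hz]
  · simp only [Prod.mk.injEq] at hh ⊢
    exact ⟨hh.1, hh.2.1.1, hh.2.2⟩

/-- The jets of order zero of the jets of order at most one. -/
theorem qjets_zero {r₀ R K₀ : ℕ} {w p N : ℕ → ℕ → ℝ} {e : ℝ} {J : ℕ} {F : Fam m J}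
    {A : F.Ω → Prop} {u : F.Ω → ℕ → ℕ → ℤ} {j : ℕ} (h : (qJets m c r₀ R j w p N).P K₀ e J F A u) :
    (qJets m c r₀ R 0 w p N).P K₀ e J F A (fun ω i j' => if j' = 0 then u ω i j' else 0) := by
  obtain ⟨h1, h2⟩ := h
  refine ⟨fun i a b j' hj' => ?_, fun ω hω i j' hh => ?_⟩
  · obtain rfl : j' = 0 := by omega
    simp only [if_true]
    exact h1 i a b 0 (Nat.zero_le j)
  · show (if j' = 0 then u ω i j' else 0) = 0
    by_cases hj : j' = 0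
    · rw [if_pos hj]
      exact h2 ω hω i j' fun hc => hh ⟨hc.1, hc.2.1, by omega⟩
    · rw [if_neg hj]

/-- **The value of the second label is few bits** given the near heights of the base. -/
theorem psq_val {S : PCl m} {C₀ : ℝ} (htm : TmC S C₀)
    (hpos : ∀ (τ : ℝ) (J : ℕ) (F : Fam m J) (A : F.Ω → Prop), S.St τ J F A → 0 < Pe F.p A)
    (hΨd : ∀ (J : ℕ) (F : Fam m J) (A : F.Ω → Prop) (V : Type) (z : PtT F → V) (z' : LnT F → V)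
      (G : V → MvPolynomial (Option (Fin m)) ℝ), Ψ₀ J F A V z z' G →
      (∀ y, (G y).totalDegree ≤ D) ∧ (∀ y, DpI ((range (r + 1)).image c) (G y)) ∧
      ∀ ω, A ω → z (ptr F J ω) = z' (slam F ⌊vn * J⌋₊ ω))
    (hvn : vn ≤ v) (hvt : v ≤ t) (ht : t ≤ 1) (hr1 : 1 ≤ r) {s : ℝ} (hs : s ≤ pa)
    {u₀ u₁ p₀ σ₀ pm : ℝ} {so rdc lv pf : ℕ → ℝ} {Nf : ℕ → ℕ → ℝ}
    (hch : Chn S c 0 r t u₀ u₁ so rdc) (hu0 : u₀ < p₀) (hp0 : p₀ ≤ 1) (hσ₀ : 0 < σ₀)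
    (hlv : ∀ i < r, 0 < lv i)
    (h1 : ∀ i < r, so i + lv i + σ₀ ≤ Nf i 0)
    (h2 : ∀ i < r, so i + lv i + σ₀ ≤ min (pf i) (so i) + (p₀ - u₀))
    (h2' : ∀ i < r, ∀ l < i, so i + lv i + σ₀ ≤ min (pf i) (so i) + lv l)
    (hm1 : pm ≤ pN) (hm2 : pm ≤ pa) (hm3 : σ₀ ≤ pm) (h3 : s + σ₀ ≤ pm + (p₀ - u₀))
    (h3' : ∀ l < r, s + σ₀ ≤ pm + lv l) {e₁ : ℝ} (he : e₁ ≤ σ₀ / 8) {δ : ℝ} (hδ : 0 < δ) :
    Fw2 S (fun J F => ptr F J) t (fun _ F => F.T)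
      (qJets m c 0 r 1 (fun _ _ => t) (fun l _ => pf l) Nf)
      (PsQ Ψ₀ c r D K vn v t p₁ p₂ eN uN pN pa₁ pa₂ ea ua pa lam e E rd p n)
      (τ := fun _ _ _ _ => ℤ) (fun J F _ _ z' _ G₂ _ ω => ⌊(2 : ℝ) ^ (s * J) *
        ojet F (c (r + 1)) 0 (G₂ (z' (slam F ⌊v * J⌋₊ ω))) ω⌋) e₁ δ := by
  intro K₀
  have hy : Kn0 ((range 0).image c) p₀ (fun (J : ℕ) (F : Fam m J) => F.T) := by
    intro J F
    refine ⟨fun t => (t, fun _ => 0), fun ω => ?_⟩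
    simp only [Finset.range_zero, Finset.image_empty, Finset.notMem_empty, if_false]
  have H := nzq_few (Ψ := Ψ₀) (κ := c (r + 1)) (K := D) (K₁ := D) (Ku := D) (Kb := D) (w := vn)
    (v := v) (p₁ := p₁) (p₂ := p₂) (eN := eN) (uN := uN) (pN := pN) (a := t) (pa₁ := pa₁)
    (pa₂ := pa₂) (ea := ea) (ua := ua) (pa := pa) (s := s) htm hpos hΨd hvn hvt ht hr1 hs
    (b₀ := 0) (u₀ := u₀) (u₁ := u₁) (p₀ := p₀) (σ₀ := σ₀) (pm := pm) (so := so) (rd := rdc)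
    (lv := lv) (wv := fun _ _ => t) (pv := fun l _ => pf l) (Nv := Nf) hch
    (fun _ _ _ _ _ => le_rfl) hu0 hp0 hσ₀ (fun i _ hi => hlv i hi) (fun i _ hi => h1 i hi)
    (fun i _ hi => h2 i hi) (fun i _ hi l _ hl => h2' i hi l hl) hm1 hm2 hm3 h3
    (fun l _ hl => h3' l hl) (f := fun J F => ptr F J) (y := fun _ F => F.T)
    (fun J F => ⟨id, fun ω => rfl⟩) hy hδ K₀
  refine Bas.mono 0 H ?_
  rintro J - F A H V C z z' G₁ G₂ cc ⟨g, -, -, -, h4, -, -⟩ uu huu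
  obtain ⟨V₁, z₁, hz₁, h5⟩ := H V z z' G₂ h4 _
    (qjets_zero ((qJets m c 0 r 1 _ _ _).mono le_rfl he huu))
  refine ⟨V₁, z₁, hz₁, le_trans (CH_mono_cond (cond_nonneg F.isLaw.nonneg A True)
    fun ω ω' _ _ hh => ?_) h5⟩
  simp only [Prod.mk.injEq] at hh ⊢
  refine ⟨?_, hh.2⟩
  rw [hh.1]

/-- **The value of the second label**, with the numbers of a chain of slope one: far digits `k`. -/
theorem psq_valN {S : PCl m} {C₀ : ℝ} (htm : TmC S C₀)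
    (hpos : ∀ (τ : ℝ) (J : ℕ) (F : Fam m J) (A : F.Ω → Prop), S.St τ J F A → 0 < Pe F.p A)
    (hΨd : ∀ (J : ℕ) (F : Fam m J) (A : F.Ω → Prop) (V : Type) (z : PtT F → V) (z' : LnT F → V)
      (G : V → MvPolynomial (Option (Fin m)) ℝ), Ψ₀ J F A V z z' G →
      (∀ y, (G y).totalDegree ≤ D) ∧ (∀ y, DpI ((range (r + 1)).image c) (G y)) ∧
      ∀ ω, A ω → z (ptr F J ω) = z' (slam F ⌊vn * J⌋₊ ω))
    (hvn : vn ≤ v) (hvt : v ≤ t) (ht : t ≤ 1) (hr1 : 1 ≤ r) {s : ℝ} (hs : s ≤ pa)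
    {u₁ σ k pm : ℝ} {so rdc pf : ℕ → ℝ} {Nf : ℕ → ℕ → ℝ}
    (hch : Chn S c 0 r t t u₁ so rdc) (hσ : 0 < σ) (hk : 2 * (r + 1) * σ ≤ k) (hk1 : t + k ≤ 1)
    (hpf : ∀ i < r, so i - σ ≤ pf i) (hNf : ∀ i < r, so i + k ≤ Nf i 0)
    (hm1 : pm ≤ pN) (hm2 : pm ≤ pa) (hm3 : σ ≤ pm) (h3 : s + 2 * (r + 1) * σ ≤ pm + k)
    {e₁ : ℝ} (he : e₁ ≤ σ / 8) {δ : ℝ} (hδ : 0 < δ) :
    Fw2 S (fun J F => ptr F J) t (fun _ F => F.T)
      (qJets m c 0 r 1 (fun _ _ => t) (fun l _ => pf l) Nf)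
      (PsQ Ψ₀ c r D K vn v t p₁ p₂ eN uN pN pa₁ pa₂ ea ua pa lam e E rd p n)
      (τ := fun _ _ _ _ => ℤ) (fun J F _ _ z' _ G₂ _ ω => ⌊(2 : ℝ) ^ (s * J) *
        ojet F (c (r + 1)) 0 (G₂ (z' (slam F ⌊v * J⌋₊ ω))) ω⌋) e₁ δ := by
  have hr0 : (1 : ℝ) ≤ r := by exact_mod_cast hr1
  have hrσ : σ ≤ r * σ := le_mul_of_one_le_left hσ.le hr0
  have ek : 2 * ((r : ℝ) + 1) * σ = 2 * (r * σ) + 2 * σ := by ring
  rw [ek] at hk h3
  have hi1 : ∀ i < r, (i : ℝ) * σ + σ ≤ r * σ := fun i hi => by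
    have h1 : (i : ℝ) + 1 ≤ r := by exact_mod_cast hi
    have h2 := mul_le_mul_of_nonneg_right h1 hσ.le
    linarith
  refine psq_val htm hpos hΨd hvn hvt ht hr1 hs (u₀ := t) (u₁ := u₁) (p₀ := t + k) (σ₀ := σ)
    (pm := pm) (so := so) (rdc := rdc) (lv := fun i => k - 2 * (i * σ + σ)) hch
    (by linarith) hk1 hσ (fun i hi => ?_) (fun i hi => ?_) (fun i hi => ?_) (fun i hi l hl => ?_)
    hm1 hm2 hm3 (by linarith) (fun l hl => ?_) he hδ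
  · have := hi1 i hi
    linarith
  · have h2 := hNf i hi
    have h4 : 0 ≤ (i : ℝ) * σ := by positivity
    linarith
  · have h2 : so i - σ ≤ min (pf i) (so i) := le_min (hpf i hi) (by linarith)
    have h4 : 0 ≤ (i : ℝ) * σ := by positivity
    linarith
  · have h2 : so i - σ ≤ min (pf i) (so i) := le_min (hpf i hi) (by linarith)
    have h4 : (l : ℝ) + 1 ≤ i := by exact_mod_cast hl
    have h5 := mul_le_mul_of_nonneg_right h4 hσ.le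
    linarith
  · have := hi1 l hl
    linarith

end Pool.PN18
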