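import Pool.Agent.H18.PN.Psq

/-!
# The family of the pairs of labels with a natural second label

`psq_psl`, `psq_dcp`, `psq_ex`: the labels, the decomposition of the second label, the existence.
-/

set_option autoImplicit false

namespace Pool.PN18

open Finset Real MvPolynomial
open Pool.Agent.H49.Ent Pool.Agent.H32.Dense Pool.STK Pool.KA Pool.KSAT Pool.K2S Pool.PB Pool.GEN
open Pool.S6C Pool.RCD Pool.LA91 Pool.OWN68 Pool.AJW Pool.AJX Pool.CHT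
open Pool.ALT (Fml NzQ NzF NzL NzO nzG floorw wz wz_slam sbu sbu_deg sbu_dep DpI DpI.sub)
open Pool.GRD (LbP)

variable {m : ℕ} {Ψ₀ : Fml m} {c : ℕ → Fin m} {r D K : ℕ}
  {vn v t p₁ p₂ eN uN pN pa₁ pa₂ ea ua pa lam e : ℝ} {E rd p n : ℕ → ℝ}

/-- The family is hereditary. -/
theorem psq_sub (hs : ∀ (J : ℕ) (F : Fam m J) (A B : F.Ω → Prop) (V : Type)
      (z : PtT F → V) (z' : LnT F → V) (G : V → MvPolynomial (Option (Fin m)) ℝ), Sub B A →
      Ψ₀ J F A V z z' G → Ψ₀ J F B V z z' G) (J : ℕ) (F : Fam m J) (A B : F.Ω → Prop)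
    (V C : Type) (z : PtT F → V) (z' : LnT F → V) (G₁ G₂ : V → MvPolynomial (Option (Fin m)) ℝ)
    (cc : LnT F → C) (hB : Sub B A)
    (h : PsQ Ψ₀ c r D K vn v t p₁ p₂ eN uN pN pa₁ pa₂ ea ua pa lam e E rd p n J F A V C z z'
      G₁ G₂ cc) :
    PsQ Ψ₀ c r D K vn v t p₁ p₂ eN uN pN pa₁ pa₂ ea ua pa lam e E rd p n J F B V C z z'
      G₁ G₂ cc := by
  obtain ⟨g, h1, h2, h3, h4, h5, h6⟩ := h
  exact ⟨g, h1.sub hB, h2, h3, NzQ.hs hs J F A B V z z' G₂ hB h4, h5, h6⟩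

/-- **The labels of the family.** -/
theorem psq_psl (hs : ∀ (J : ℕ) (F : Fam m J) (A B : F.Ω → Prop) (V : Type)
      (z : PtT F → V) (z' : LnT F → V) (G : V → MvPolynomial (Option (Fin m)) ℝ), Sub B A →
      Ψ₀ J F A V z z' G → Ψ₀ J F B V z z' G) :
    PsL (PsQ Ψ₀ c r D K vn v t p₁ p₂ eN uN pN pa₁ pa₂ ea ua pa lam e E rd p n) c r K
      ((range (r + 1)).image c) (c (r + 1)) v lam e (E (r + 1) + e) (rd (r + 1) + e) (p (r + 1))
      E rd p n := by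
  refine ⟨?_, fun J F A B V C z z' G₁ G₂ cc hB h => psq_sub hs J F A B V C z z' G₁ G₂ cc hB h⟩
  rintro J F A V C z z' G₁ G₂ cc ⟨g, h1, rfl, rfl, h4, h5, h6⟩
  exact ⟨⟨g, fun i a b => h1 i a (by omega), rfl, h5⟩, h1 (r + 1) (Nat.zero_le _) (by omega)⟩

/-- **The second label** is a label of the earlier window plus a closed polynomial over the
chain. -/
theorem psq_dcp {E₀ R₀ P₀ P₀' : ℝ}
    (hΨ : ∀ (J : ℕ) (F : Fam m J) (A : F.Ω → Prop) (V : Type) (z : PtT F → V) (z' : LnT F → V)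
      (G : V → MvPolynomial (Option (Fin m)) ℝ), Ψ₀ J F A V z z' G →
      LbOK F ((range (r + 1)).image c) (c (r + 1)) D ⌊E₀ * J⌋₊ J ⌊vn * J⌋₊ ⌊R₀ * J⌋₊
        ⌊P₀' * J⌋₊ A z z' G) (hP : P₀ - e ≤ P₀') (hvn : vn ≤ v) (hv : v ≤ 1) :
    Dcp2 (PsQ Ψ₀ c r D K vn v t p₁ p₂ eN uN pN pa₁ pa₂ ea ua pa lam e E rd p n)
      ((range r).image c) ((range (r + 1)).image c) (c (r + 1)) (D * max 1 D) vn v E₀ R₀ P₀ e := by
  rintro J F A V C z z' G₁ G₂ cc ⟨g, -, -, -, h4, -, -⟩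
  obtain ⟨V₀, V₁, V₂, z₀, z₀', G₀, P₁, z₁, z₁', G₁', P₂, z₂, z₂', H, f, a1, a2, -⟩ := h4
  have hJ0 : (0 : ℝ) ≤ J := Nat.cast_nonneg J
  have hl := hΨ J F A V₀ z₀ z₀' G₀ a1
  obtain ⟨f1, f2⟩ := floorw hvn hv J
  refine ⟨V₀, z₀, z₀', G₀, fun y => sbu (c r) (H (f y).2.2) (G₁' (f y).2.1 - G₀ (f y).1),
    hl.mono (Finset.Subset.refl _) ?_ le_rfl le_rfl
      (Nat.floor_le_floor (mul_le_mul_of_nonneg_right hP hJ0)), fun y => ?_, fun y => ?_,
    fun ω hω => ?_⟩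
  · calc D = D * 1 := (mul_one D).symm
      _ ≤ D * max 1 D := Nat.mul_le_mul_left D (le_max_left 1 D)
  · refine sbu_deg (c r) (a2.l2.deg _) ?_
    exact (totalDegree_sub _ _).trans (max_le (a2.l1.deg _) (hl.deg _))
  · exact sbu_dep (DpI.sub (a2.l1.dep _) (hl.dep _)) (a2.l2.dep _)
  · dsimp only
    rw [a2.pol]
    unfold nzG
    rw [a2.cod, wz_slam z₀' f1 f2]

/-- A label with a finer code. -/
theorem lbok_code {J : ℕ} {F : Fam m J} {I : Finset (Fin m)} {k : Fin m} {K e w ρ P : ℕ}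
    {A : F.Ω → Prop} {V V' : Type} {z : PtT F → V} {z' : LnT F → V}
    {G : V → MvPolynomial (Option (Fin m)) ℝ} (h : LbOK F I k K e J w ρ P A z z' G)
    (y : PtT F → V') (y' : LnT F → V') (φ : V' → V) (h1 : ∀ x, φ (y' x) = z' x)
    (h2 : ∀ ω, A ω → y (ptr F J ω) = y' (slam F w ω)) :
    LbOK F I k K e J w ρ P A y y' (fun x => G (φ x)) := by
  refine ⟨fun x => h.deg _, fun x => h.dep _, h2, fun ω hω => ?_, fun ω hω => ?_, fun ω hω => ?_⟩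
  · simp only [h1]
    exact h.pos ω hω
  · simp only [h1]
    exact h.vel ω hω
  · simp only [h1]
    exact h.lip ω hω

/-- **The family is not empty**: the labels of a chain and a natural label, with one code. -/
theorem psq_ex {S : PCl m} (h1 : Bas S (fun J F A => ∃ (V : Type) (z : PtT F → V) (z' : LnT F → V)
      (g : V → ℕ → MvPolynomial (Option (Fin m)) ℝ), LbX F c 0 (r + 1) K e E v rd p A z z' g))
    (h2 : Bas S (fun J F A => ∃ (V : Type) (z : PtT F → V) (z' : LnT F → V)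
      (G : V → MvPolynomial (Option (Fin m)) ℝ),
      NzQ Ψ₀ c r (c (r + 1)) D D D D vn v p₁ p₂ eN uN pN t pa₁ pa₂ ea ua pa J F A V z z' G))
    (hK : max D D * max 1 D ≤ K) (hE : eN ≤ E (r + 1) + e) (hR : uN ≤ rd (r + 1) + e)
    (hp : p (r + 1) - e ≤ pN) :
    Bas S (fun J F A => ∃ (V C : Type) (z : PtT F → V) (z' : LnT F → V)
      (G₁ G₂ : V → MvPolynomial (Option (Fin m)) ℝ) (cc : LnT F → C),
      PsQ Ψ₀ c r D K vn v t p₁ p₂ eN uN pN pa₁ pa₂ ea ua pa lam e E rd p n J F A V C z z'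
        G₁ G₂ cc) := by
  refine Bas.mono 0 (h1.and h2) ?_
  rintro J - F A ⟨⟨V₁, z₁, z₁', g, hg⟩, V₂, z₂, z₂', G, hG⟩
  have hJ0 : (0 : ℝ) ≤ J := Nat.cast_nonneg J
  have hl := hG.nzf.lb
  have hc1 : ∀ ω, A ω → z₁ (ptr F J ω) = z₁' (slam F ⌊v * J⌋₊ ω) :=
    (hg 0 le_rfl (by omega)).cls
  have hcod : ∀ ω, A ω → (z₁ (ptr F J ω), z₂ (ptr F J ω)) =
      (z₁' (slam F ⌊v * J⌋₊ ω), z₂' (slam F ⌊v * J⌋₊ ω)) := fun ω hω =>
    Prod.ext (hc1 ω hω) (hl.cls ω hω)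
  obtain ⟨gg, hgg⟩ : ∃ gg : V₁ × V₂ → ℕ → MvPolynomial (Option (Fin m)) ℝ, gg = fun x i =>
    if i = r + 1 then G x.2 else g x.1 i := ⟨_, rfl⟩
  have e2 : (fun x => gg x (r + 1)) = fun x : V₁ × V₂ => G x.2 := by
    funext x
    rw [hgg]
    exact if_pos rfl
  refine ⟨V₁ × V₂, (V₁ × V₂) × ((Fin m → ℤ × ℤ) × (ℕ → ℕ → ℤ)), fun x => (z₁ x, z₂ x),
    fun x => (z₁' x, z₂' x), fun x => gg x r, fun x => gg x (r + 1),
    fun x => ((z₁' x, z₂' x), ctxN F c 0 r ⌊v * J⌋₊ ⌊(v + lam) * J⌋₊ K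
      (fun x => (z₁' x, z₂' x)) gg n x), gg, ?_, rfl, rfl, ?_, ⟨Prod.snd, fun _ => rfl⟩,
    id, fun _ => rfl⟩
  · intro i _ hi
    by_cases hir : i = r + 1
    · subst hir
      rw [e2]
      exact (lbok_code hl (fun x => (z₁ x, z₂ x)) (fun x => (z₁' x, z₂' x)) Prod.snd
        (fun _ => rfl) hcod).mono (Finset.Subset.refl _) hK
        (Nat.floor_le_floor (mul_le_mul_of_nonneg_right hE hJ0))
        (Nat.floor_le_floor (mul_le_mul_of_nonneg_right hR hJ0))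
        (Nat.floor_le_floor (mul_le_mul_of_nonneg_right hp hJ0))
    · have e3 : (fun x => gg x i) = fun x : V₁ × V₂ => g x.1 i := by
        funext x
        rw [hgg]
        exact if_neg hir
      rw [e3]
      exact lbok_code (hg i (Nat.zero_le i) (by omega)) (fun x => (z₁ x, z₂ x))
        (fun x => (z₁' x, z₂' x)) Prod.fst (fun _ => rfl) hcod
  · rw [e2]
    exact hG.code (fun x => (z₁ x, z₂ x)) (fun x => (z₁' x, z₂' x)) Prod.snd (fun _ => rfl) hcod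

end Pool.PN18
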